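import Pool.Agent.Helper65.RT.Goals
import Pool.Agent.Helper81.Tok3.LSFN

/-!
# Parallel machines with adaptive reads: the numeric extensions are linear-space functions
-/

namespace Pool.Agent.Helper83.RT

open Pool.Agent.Helper65.LinSpace Pool.Agent.Helper65.RT Finset

variable {α β : Type} [Ctx α] [Ctx β]

theorem lsm_comp {m : α → Mach} {C : α → ℕ} (h : LSM m C) {f : β → α} (hf : LS f) :
    LSM (fun z => m (f z)) (fun z => C (f z)) where
  σ := LS.comp (g := fun z => (m z).σ) h.σ hf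
  a := LS.comp (g := fun z => (m z).a) h.a hf
  b := LS.comp (g := fun z => (m z).b) h.b hf
  E := LS.comp (g := fun z => (m z).E) h.E hf
  G := LS.comp (g := fun z => (m z).G) h.G hf
  K := LS.comp (g := fun z => (m z).K) h.K hf
  q := LS.comp (g := fun z : α × ℕ × ℕ × ℕ => (m z.1).q z.2.1 z.2.2.1 z.2.2.2)
    (f := fun z : β × ℕ × ℕ × ℕ => (f z.1, z.2)) h.q (by fun_prop)
  g := LS.comp (g := fun z : α × ℕ × ℕ × ℕ × ℕ => (m z.1).g z.2.1 z.2.2.1 z.2.2.2.1 z.2.2.2.2)
    (f := fun z : β × ℕ × ℕ × ℕ × ℕ => (f z.1, z.2)) h.g (by fun_prop)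
  o := LS.comp (g := fun z : α × ℕ × ℕ => (m z.1).o z.2.1 z.2.2)
    (f := fun z : β × ℕ × ℕ => (f z.1, z.2)) h.o (by fun_prop)
  t0 := LS.comp (g := fun z : α × ℕ => (m z.1).t0 z.2) (f := fun z : β × ℕ => (f z.1, z.2)) h.t0
    (by fun_prop)
  root := LS.comp (g := fun z => (m z).root) h.root hf
  bd := LS.comp (g := C) h.bd hf
  ok z := h.ok (f z)
  hC z := h.hC (f z)
  hS z := h.hS (f z)

theorem nrec_congr {g : ℕ} {k k' : ℕ → ℕ → ℕ} {n : ℕ} (h : ∀ i < n, ∀ r, k i r = k' i r) :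
    nrec g k n = nrec g k' n := by
  induction n with
  | zero => rfl
  | succ n ih =>
    rw [nrec_succ, nrec_succ, ih fun i hi r => h i (by omega) r, h n (by omega)]

theorem Zr_lt {m : Mach} (hm : m.Ok) (i x z e : ℕ) : m.Zr i x z e < 2 ^ (m.a * (i * m.E + e)) := by
  unfold Mach.Zr
  induction e with
  | zero =>
    have h1 : i * m.wn = m.a * (i * m.E + 0) := by
      unfold Mach.wn
      ring
    rw [← h1]
    exact Nat.mod_lt _ (by positivity)
  | succ e ih =>
    rw [nrec_succ]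
    generalize nrec (z % 2 ^ (i * m.wn)) (fun e Z => Z + 2 ^ (m.a * (i * m.E + e)) *
      m.g x (i * m.E + e) Z (dig (2 ^ m.b) (z / 2 ^ (i * m.wn)) e)) e = Z at ih ⊢
    have h1 := hm.hg x (i * m.E + e) Z (dig (2 ^ m.b) (z / 2 ^ (i * m.wn)) e)
    generalize m.g x (i * m.E + e) Z (dig (2 ^ m.b) (z / 2 ^ (i * m.wn)) e) = v at h1 ⊢
    have h2 : m.a * (i * m.E + (e + 1)) = m.a * (i * m.E + e) + m.a := by ring
    rw [h2, pow_add]
    generalize 2 ^ (m.a * (i * m.E + e)) = u at ih ⊢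
    calc Z + u * v < u + u * v := by omega
      _ = u * (v + 1) := by ring
      _ ≤ u * 2 ^ m.a := Nat.mul_le_mul_left _ h1

theorem exp_le (m : Mach) {i e : ℕ} (hi : i < m.G) (he : e ≤ m.E) :
    m.a * (i * m.E + e) ≤ m.nv m.G := by
  have h1 : i * m.E + e ≤ m.G * m.E :=
    calc i * m.E + e ≤ i * m.E + m.E := by omega
      _ = (i + 1) * m.E := by ring
      _ ≤ m.G * m.E := Nat.mul_le_mul_right _ hi
  calc m.a * (i * m.E + e) ≤ m.a * (m.G * m.E) := Nat.mul_le_mul_left _ h1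
    _ = m.G * m.wn := by unfold Mach.wn; ring
    _ ≤ m.nv m.G := Nat.le_add_right _ _

theorem min_lt {m : Mach} (hm : m.Ok) (i : ℕ) : min i (m.G - 1) < m.G := by
  have := hm.hG
  omega

theorem nv_mono (m : Mach) {i j : ℕ} (h : i ≤ j) : m.nv i ≤ m.nv j := by
  unfold Mach.nv
  exact Nat.add_le_add_right (Nat.mul_le_mul_right _ h) _

section

variable {m : α → Mach} {C : α → ℕ}

theorem pow_le_C (h : LSM m C) (z : α) {n : ℕ} (hn : n ≤ (m z).nv (m z).G) : 2 ^ n ≤ C z :=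
  (Nat.pow_le_pow_right (by norm_num) hn).trans (h.hC z)

theorem ls_powb (h : LSM m C) : LS (fun z => 2 ^ (m z).b) :=
  LS.pow_of_le (f := fun _ => 2) (LS.const 2) h.b h.bd fun z => pow_le_C h z (by
    have h1 := (h.ok z).hE
    have h2 : 1 * (m z).b ≤ (m z).E * (m z).b := Nat.mul_le_mul_right _ h1
    unfold Mach.nv Mach.wv
    omega)

theorem ls_powσ (h : LSM m C) : LS (fun z => 2 ^ (m z).σ) :=
  LS.pow_of_le (f := fun _ => 2) (LS.const 2) h.σ h.bd fun z =>
    (Nat.pow_le_pow_right (by norm_num) (by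
      have h1 := (h.ok z).hE
      have h2 : (m z).σ * 1 ≤ (m z).σ * (m z).E := Nat.mul_le_mul_left _ h1
      omega)).trans (h.hS z)

theorem ls_wn (h : LSM m C) : LS (fun z => (m z).wn) := by
  have h1 := h.a
  have h2 := h.E
  unfold Mach.wn
  fun_prop

theorem ls_wv (h : LSM m C) : LS (fun z => (m z).wv) := by
  have h1 := h.b
  have h2 := h.E
  unfold Mach.wv
  fun_prop

theorem ls_nv (h : LSM m C) {i : α → ℕ} (hi : LS i) : LS (fun z => (m z).nv (i z)) := by
  have h1 := ls_wn h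
  have h2 := ls_wv h
  unfold Mach.nv
  fun_prop

theorem ls_zb (h : LSM m C) {k : α → ℕ} (hk : LS k) : LS (fun z => (m z).zb (k z)) := by
  have h1 := ls_wn h
  have h2 := ls_wv h
  have h3 := h.G
  unfold Mach.zb
  fun_prop

theorem ls_yb (h : LSM m C) {k : α → ℕ} (hk : LS k) : LS (fun z => (m z).yb (k z)) := by
  have h1 := ls_wn h
  have h2 := ls_zb h hk
  have h3 := h.G
  unfold Mach.yb
  fun_prop

theorem ls_q (h : LSM m C) {x i Z : α → ℕ} (hx : LS x) (hi : LS i) (hZ : LS Z) :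
    LS (fun z => (m z).q (x z) (i z) (Z z)) :=
  LS.comp (g := fun z : α × ℕ × ℕ × ℕ => (m z.1).q z.2.1 z.2.2.1 z.2.2.2)
    (f := fun z => (z, x z, i z, Z z)) h.q
    (LS.prodMk LS.id (LS.prodMk hx (LS.prodMk hi hZ)))

theorem ls_g (h : LSM m C) {x i Z v : α → ℕ} (hx : LS x) (hi : LS i) (hZ : LS Z) (hv : LS v) :
    LS (fun z => (m z).g (x z) (i z) (Z z) (v z)) :=
  LS.comp (g := fun z : α × ℕ × ℕ × ℕ × ℕ => (m z.1).g z.2.1 z.2.2.1 z.2.2.2.1 z.2.2.2.2)
    (f := fun z => (z, x z, i z, Z z, v z)) h.g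
    (LS.prodMk LS.id (LS.prodMk hx (LS.prodMk hi (LS.prodMk hZ hv))))

theorem ls_o (h : LSM m C) {x Z : α → ℕ} (hx : LS x) (hZ : LS Z) :
    LS (fun z => (m z).o (x z) (Z z)) :=
  LS.comp (g := fun z : α × ℕ × ℕ => (m z.1).o z.2.1 z.2.2)
    (f := fun z => (z, x z, Z z)) h.o (LS.prodMk LS.id (LS.prodMk hx hZ))

theorem ls_im (h : LSM m C) {i : α → ℕ} (hi : LS i) : LS (fun z => min (i z) ((m z).G - 1)) := by
  have h1 := h.G
  fun_prop

theorem ls_Zr (h : LSM m C) {i x w e : α → ℕ} (hi : LS i) (hx : LS x) (hw : LS w) (he : LS e) :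
    LS (fun z => (m z).Zr (min (i z) ((m z).G - 1)) (x z) (w z) (min (e z) (m z).E)) := by
  have hi' := ls_im h hi
  have hE := h.E
  have hbd := h.bd
  have hwn := ls_wn h
  have hN : LS (fun z => min (e z) (m z).E) := by fun_prop
  have hK : LS (fun p : α × ℕ × ℕ => p.2.2 +
      2 ^ ((m p.1).a * (min (i p.1) ((m p.1).G - 1) * (m p.1).E + min p.2.1 (m p.1).E)) *
      (m p.1).g (x p.1) (min (i p.1) ((m p.1).G - 1) * (m p.1).E + p.2.1) p.2.2
        (dig (2 ^ (m p.1).b) (w p.1 / 2 ^ (min (i p.1) ((m p.1).G - 1) * (m p.1).wn)) p.2.1)) := by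
    have h' : LSM (fun z : α × ℕ × ℕ => m z.1) (fun z => C z.1) := lsm_comp h LS.fst
    have ha := h'.a
    have hE' := h'.E
    have hi'' := ls_im h' (i := fun z : α × ℕ × ℕ => i z.1) (by fun_prop)
    have hpb := ls_powb h'
    have hwn' := ls_wn h'
    have hbd' := h'.bd
    have hexp : LS (fun p : α × ℕ × ℕ =>
        (m p.1).a * (min (i p.1) ((m p.1).G - 1) * (m p.1).E + min p.2.1 (m p.1).E)) :=
      LS.mul ha (LS.add (LS.mul hi'' hE') (LS.min (by fun_prop) hE'))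
    have e1 : LS (fun p : α × ℕ × ℕ =>
        2 ^ ((m p.1).a * (min (i p.1) ((m p.1).G - 1) * (m p.1).E + min p.2.1 (m p.1).E))) :=
      LS.pow_of_le (f := fun _ => 2) (by fun_prop) hexp hbd' fun p =>
        pow_le_C h p.1 (exp_le _ (min_lt (h.ok p.1) _) (min_le_right _ _))
    have e2 : LS (fun p : α × ℕ × ℕ =>
        w p.1 / 2 ^ (min (i p.1) ((m p.1).G - 1) * (m p.1).wn)) :=
      LS.divPow (q := fun _ => 2) (by fun_prop) (by fun_prop) (LS.mul hi'' hwn')
    have e3 : LS (fun p : α × ℕ × ℕ =>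
        dig (2 ^ (m p.1).b) (w p.1 / 2 ^ (min (i p.1) ((m p.1).G - 1) * (m p.1).wn)) p.2.1) :=
      LS.dig hpb e2 (by fun_prop)
    have e4 : LS (fun p : α × ℕ × ℕ => min (i p.1) ((m p.1).G - 1) * (m p.1).E + p.2.1) :=
      LS.add (LS.mul hi'' hE') (by fun_prop)
    have e5 := ls_g h' (x := fun p : α × ℕ × ℕ => x p.1) (Z := fun p => p.2.2) (by fun_prop) e4
      (by fun_prop) e3
    exact LS.add (by fun_prop) (LS.mul e1 e5)
  have hG : LS (fun z => w z % 2 ^ (min (i z) ((m z).G - 1) * (m z).wn)) :=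
    LS.modPow (q := fun _ => 2) (by fun_prop) hw (LS.mul hi' hwn)
  have key : ∀ (z : α) (j : ℕ), j ≤ (m z).E →
      nrec (w z % 2 ^ (min (i z) ((m z).G - 1) * (m z).wn)) (fun t Z => Z +
        2 ^ ((m z).a * (min (i z) ((m z).G - 1) * (m z).E + min t (m z).E)) *
        (m z).g (x z) (min (i z) ((m z).G - 1) * (m z).E + t) Z
          (dig (2 ^ (m z).b) (w z / 2 ^ (min (i z) ((m z).G - 1) * (m z).wn)) t)) j =
        (m z).Zr (min (i z) ((m z).G - 1)) (x z) (w z) j := by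
    intro z j hj
    unfold Mach.Zr
    refine nrec_congr fun t ht r => ?_
    rw [min_eq_left (by omega : t ≤ (m z).E)]
  refine LS.congr (LS.nrec (G := fun z => w z % 2 ^ (min (i z) ((m z).G - 1) * (m z).wn))
    (N := fun z => min (e z) (m z).E) (C := C)
    (K := fun z t Z => Z +
        2 ^ ((m z).a * (min (i z) ((m z).G - 1) * (m z).E + min t (m z).E)) *
        (m z).g (x z) (min (i z) ((m z).G - 1) * (m z).E + t) Z
          (dig (2 ^ (m z).b) (w z / 2 ^ (min (i z) ((m z).G - 1) * (m z).wn)) t))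
    hG hN hbd hK ?_) fun z => (key z _ (min_le_right _ _)).symm
  intro z j hj
  rw [key z j (hj.trans (min_le_right _ _))]
  exact (Zr_lt (h.ok z) _ _ _ _).le.trans
    (pow_le_C h z (exp_le _ (min_lt (h.ok z) _) (hj.trans (min_le_right _ _))))

theorem ok_le (m : Mach) (i x y z n : ℕ) : m.ok i x y z n ≤ 1 := by
  unfold Mach.ok
  induction n with
  | zero => exact le_refl _
  | succ n ih =>
    rw [nrec_succ]
    have h1 : ∀ u v, eq01 u v ≤ 1 := by
      intro u v
      unfold eq01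
      split_ifs <;> omega
    calc _ ≤ 1 * 1 := Nat.mul_le_mul ih (h1 _ _)
      _ = 1 := rfl

theorem ls_ok (h : LSM m C) {i x y w : α → ℕ} (hi : LS i) (hx : LS x) (hy : LS y) (hw : LS w) :
    LS (fun z => (m z).ok (min (i z) ((m z).G - 1)) (x z) (y z) (w z) (m z).E) := by
  have key : ∀ (z : α) (j : ℕ), j ≤ (m z).E →
      nrec 1 (fun t c => c * eq01 ((m z).q (x z) (min (i z) ((m z).G - 1) * (m z).E + t)
        ((m z).Zr (min (i z) ((m z).G - 1)) (x z) (w z) (min t (m z).E)))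
        (dig (2 ^ (m z).σ) (y z) t)) j =
        (m z).ok (min (i z) ((m z).G - 1)) (x z) (y z) (w z) j := by
    intro z j hj
    unfold Mach.ok
    refine nrec_congr fun t ht r => ?_
    rw [min_eq_left (by omega : t ≤ (m z).E)]
  have hK : LS (fun p : α × ℕ × ℕ => p.2.2 *
      eq01 ((m p.1).q (x p.1) (min (i p.1) ((m p.1).G - 1) * (m p.1).E + p.2.1)
        ((m p.1).Zr (min (i p.1) ((m p.1).G - 1)) (x p.1) (w p.1) (min p.2.1 (m p.1).E)))
        (dig (2 ^ (m p.1).σ) (y p.1) p.2.1)) := by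
    have h' : LSM (fun z : α × ℕ × ℕ => m z.1) (fun z => C z.1) := lsm_comp h LS.fst
    have hE' := h'.E
    have hi'' := ls_im h' (i := fun z : α × ℕ × ℕ => i z.1) (by fun_prop)
    have hps := ls_powσ h'
    have e1 : LS (fun p : α × ℕ × ℕ =>
        (m p.1).Zr (min (i p.1) ((m p.1).G - 1)) (x p.1) (w p.1) (min p.2.1 (m p.1).E)) :=
      ls_Zr h' (i := fun p : α × ℕ × ℕ => i p.1) (x := fun p => x p.1) (w := fun p => w p.1)
        (e := fun p => p.2.1) (by fun_prop) (by fun_prop) (by fun_prop) (by fun_prop)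
    have e4 : LS (fun p : α × ℕ × ℕ => min (i p.1) ((m p.1).G - 1) * (m p.1).E + p.2.1) :=
      LS.add (LS.mul hi'' hE') (by fun_prop)
    have e5 := ls_q h' (x := fun p : α × ℕ × ℕ => x p.1) (by fun_prop) e4 e1
    have e6 : LS (fun p : α × ℕ × ℕ => dig (2 ^ (m p.1).σ) (y p.1) p.2.1) :=
      LS.dig hps (by fun_prop) (by fun_prop)
    exact LS.mul (by fun_prop) (LS.eq01 e5 e6)
  refine LS.congr (LS.nrec (G := fun _ => 1) (N := fun z => (m z).E) (C := fun _ => 1)
    (K := fun z t c => c * eq01 ((m z).q (x z) (min (i z) ((m z).G - 1) * (m z).E + t)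
        ((m z).Zr (min (i z) ((m z).G - 1)) (x z) (w z) (min t (m z).E)))
        (dig (2 ^ (m z).σ) (y z) t))
    (by fun_prop) h.E (by fun_prop) hK ?_) fun z => (key z _ le_rfl).symm
  intro z j hj
  rw [key z j hj]
  exact ok_le _ _ _ _ _ _

theorem ls_F (h : LSM m C) {i x y w : α → ℕ} (hi : LS i) (hx : LS x) (hy : LS y) (hw : LS w) :
    LS (fun z => (m z).F (min (i z) ((m z).G - 1)) (x z) (y z) (w z)) := by
  have e1 := ls_ok h hi hx hy hw
  have e2 : LS (fun z => (m z).Zr (min (i z) ((m z).G - 1)) (x z) (w z) (m z).E) :=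
    LS.congr (ls_Zr h hi hx hw h.E) fun z => by rw [min_self]
  have e3 : LS (fun z => (m z).Zr (min (i z) ((m z).G - 1)) (x z) (w z) (m z).E /
      2 ^ (min (i z) ((m z).G - 1) * (m z).wn)) :=
    LS.divPow (q := fun _ => 2) (by fun_prop) e2 (LS.mul (ls_im h hi) (ls_wn h))
  unfold Mach.F
  exact LS.mul e1 e3

end

/-- Packet RT-LSFN. -/
theorem lsfn : LSFN_stmt := by
  intro α _ m C p i x y q k X hm hp hp0 hi hx hy hq hk hX
  have hm' : LSM (fun z : α × ℕ => m z.1) (fun z => C z.1) := lsm_comp hm LS.fst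
  have hX' : LS (fun z : (α × ℕ) × ℕ => X z.1.1 z.2) :=
    LS.comp (g := fun z : α × ℕ => X z.1 z.2) (f := fun z : (α × ℕ) × ℕ => (z.1.1, z.2)) hX
      (by fun_prop)
  have hzb := ls_zb hm' (k := fun z : α × ℕ => k z.1) (by fun_prop)
  have hyb := ls_yb hm' (k := fun z : α × ℕ => k z.1) (by fun_prop)
  have e1 : LS (fun z : α × ℕ => X z.1 ((m z.1).zb (k z.1) + z.2)) :=
    LS.comp (g := fun z : α × ℕ => X z.1 z.2)
      (f := fun z : α × ℕ => (z.1, (m z.1).zb (k z.1) + z.2)) hX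
      (LS.prodMk LS.fst (LS.add hzb LS.snd))
  constructor
  · refine Pool.Agent.Helper81.Tok3H75.ls_fhG
      (N := fun z => (m z).nv (min (i z) ((m z).G - 1)))
      (F := fun z => (m z).F (min (i z) ((m z).G - 1)) (x z) (y z))
      (X := fun z => (m z).varN (min (i z) ((m z).G - 1)) (fun j => X z ((m z).zb (k z) + j))
        fun j => X z ((m z).yb (k z) + j)) hp hp0
      (ls_nv hm (ls_im hm hi)) hq hm.bd
      (fun z => pow_le_C hm z (nv_mono _ (min_lt (hm.ok z) _).le)) ?_ ?_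
    · exact ls_F hm' (i := fun z : α × ℕ => i z.1) (x := fun z => x z.1) (y := fun z => y z.1)
        (w := fun z => z.2) (by fun_prop) (by fun_prop) (by fun_prop) (by fun_prop)
    · have hi'' := ls_im hm' (i := fun z : α × ℕ => i z.1) (by fun_prop)
      have hw : LS (fun z : α × ℕ => min (i z.1) ((m z.1).G - 1) * (m z.1).wn) :=
        LS.mul hi'' (ls_wn hm')
      have e2 : LS (fun z : α × ℕ => X z.1 ((m z.1).yb (k z.1) +
          (z.2 - min (i z.1) ((m z.1).G - 1) * (m z.1).wn))) :=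
        LS.comp (g := fun z : α × ℕ => X z.1 z.2)
          (f := fun z : α × ℕ => (z.1, (m z.1).yb (k z.1) +
            (z.2 - min (i z.1) ((m z.1).G - 1) * (m z.1).wn))) hX
          (LS.prodMk LS.fst (LS.add hyb (LS.sub LS.snd hw)))
      unfold Mach.varN
      exact LS.ifz (LS.lt01 LS.snd hw) e2 e1
  · refine Pool.Agent.Helper81.Tok3H75.ls_fhG
      (N := fun z => (m z).G * (m z).wn) (F := fun z => (m z).o (x z))
      (X := fun z j => X z ((m z).zb (k z) + j)) hp hp0 (LS.mul hm.G (ls_wn hm)) hq hm.bd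
      (fun z => pow_le_C hm z (Nat.le_add_right _ _)) ?_ e1
    exact ls_o hm' (x := fun z : α × ℕ => x z.1) (Z := fun z => z.2) (by fun_prop) (by fun_prop)

end Pool.Agent.Helper83.RT
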